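import Pool.Agent.U485.SM.Stm
import Pool.Agent.U839.Gb.Chern

set_option autoImplicit false

/-! # Project HT, package CHE (helper741): Chernoff with colouring -/

open MeasureTheory ProbabilityTheory Filter Finset Topology

namespace Pool.Agent.U741.HT

open Pool.Agent.U839.Gb Pool.Agent.U485.SM

section

variable {Ω : Type*} [MeasurableSpace Ω] {μ : Measure Ω} [IsProbabilityMeasure μ]

theorem up' (F : ℕ → Set Ω) (hF : ∀ n, MeasurableSet (F n)) (hi : iIndepSet F μ) (s : Finset ℕ)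
    (ε lam : ℝ) (hε : 0 ≤ ε) (hε1 : ε ≤ 1) :
    μ.real {ω | (1 + ε) * ∑ a ∈ s, μ.real (F a) + lam ≤ SS F s ω} ≤ Real.exp (-(ε * lam / 2)) := by
  have hm0 : 0 ≤ ∑ a ∈ s, μ.real (F a) := sum_nonneg (fun _ _ => measureReal_nonneg)
  refine (measure_ge_le_exp_mul_mgf (t := ε / 2) _ (by linarith) (SS_int F hF s _)).trans ?_
  refine (mul_le_mul_of_nonneg_left (SS_mgf F hF hi s _) (Real.exp_pos _).le).trans ?_
  rw [← Real.exp_add]
  apply Real.exp_le_exp.2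
  have h1 : Real.exp (ε / 2) ≤ 1 + ε / 2 + (ε / 2) ^ 2 := by
    have h2 := Real.abs_exp_sub_one_sub_id_le (x := ε / 2) (by rw [abs_of_nonneg (by linarith)]; linarith)
    have h3 := (abs_le.1 h2).2
    linarith
  have h4 : (∑ a ∈ s, μ.real (F a)) * (Real.exp (ε / 2) - 1) ≤
      (∑ a ∈ s, μ.real (F a)) * (ε / 2 + (ε / 2) ^ 2) := by
    apply mul_le_mul_of_nonneg_left _ hm0
    linarith
  nlinarith [mul_nonneg hm0 (sq_nonneg ε)]

theorem low' (F : ℕ → Set Ω) (hF : ∀ n, MeasurableSet (F n)) (hi : iIndepSet F μ) (s : Finset ℕ)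
    (ε lam : ℝ) (hε : 0 ≤ ε) (hε1 : ε ≤ 1) :
    μ.real {ω | SS F s ω ≤ (1 - ε) * ∑ a ∈ s, μ.real (F a) - lam} ≤ Real.exp (-(ε * lam / 2)) := by
  have hm0 : 0 ≤ ∑ a ∈ s, μ.real (F a) := sum_nonneg (fun _ _ => measureReal_nonneg)
  refine (measure_le_le_exp_mul_mgf (t := -(ε / 2)) _ (by linarith) (SS_int F hF s _)).trans ?_
  refine (mul_le_mul_of_nonneg_left (SS_mgf F hF hi s _) (Real.exp_pos _).le).trans ?_
  rw [← Real.exp_add]
  apply Real.exp_le_exp.2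
  have h1 : Real.exp (-(ε / 2)) ≤ 1 + -(ε / 2) + (ε / 2) ^ 2 := by
    have h2 := Real.abs_exp_sub_one_sub_id_le (x := -(ε / 2))
      (by rw [abs_neg, abs_of_nonneg (by linarith)]; linarith)
    have h3 := (abs_le.1 h2).2
    rw [neg_sq] at h3
    linarith
  have h4 : (∑ a ∈ s, μ.real (F a)) * (Real.exp (-(ε / 2)) - 1) ≤
      (∑ a ∈ s, μ.real (F a)) * (-(ε / 2) + (ε / 2) ^ 2) := by
    apply mul_le_mul_of_nonneg_left _ hm0
    linarith
  nlinarith [mul_nonneg hm0 (sq_nonneg ε)]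

end

open Classical in
/-- one colour -/
theorem colour {Ω : Type} [MeasurableSpace Ω] {μ : Measure Ω} [IsProbabilityMeasure μ] (E : ℕ → Set Ω)
    (hE : ∀ n, MeasurableSet (E n)) (hI : iIndepSet E μ) (V : Finset ℤ) (U : ℤ → Finset ℕ)
    (hU : ∀ n ∈ V, ∀ m ∈ V, n ≠ m → Disjoint (U n) (U m)) (ε lam : ℝ) (hε : 0 ≤ ε) (hε1 : ε ≤ 1) :
    μ.real {ω | ε * ∑ n ∈ V, ∏ j ∈ U n, μ.real (E j) + lam <
      |∑ n ∈ V, (if ∀ j ∈ U n, ω ∈ E j then (1 : ℝ) else 0) - ∑ n ∈ V, ∏ j ∈ U n, μ.real (E j)|} ≤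
    2 * Real.exp (-(ε * lam / 2)) := by
  obtain ⟨e, -⟩ : ∃ e : ℤ ≃ ℕ, e = Equiv.intEquivNat := ⟨_, rfl⟩
  obtain ⟨Uk, hUk⟩ : ∃ Uk : ℕ → Finset ℕ, ∀ a, Uk a = if e.symm a ∈ V then U (e.symm a) else ∅ :=
    ⟨_, fun _ => rfl⟩
  have hUkV : ∀ n ∈ V, Uk (e n) = U n := by
    intro n hn
    rw [hUk, e.symm_apply_apply, if_pos hn]
  have hdis : ∀ a b, a ≠ b → Disjoint (Uk a) (Uk b) := by
    intro a b hab
    rw [hUk, hUk]
    split_ifs with h1 h2
    · exact hU _ h1 _ h2 (fun h => hab (e.symm.injective h))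
    · exact disjoint_empty_right _
    · exact disjoint_empty_left _
    · exact disjoint_empty_left _
  obtain ⟨F, hF⟩ : ∃ F : ℕ → Set Ω, ∀ a, F a = ⋂ m ∈ Uk a, E m := ⟨_, fun _ => rfl⟩
  have hFm : ∀ a, MeasurableSet (F a) := by
    intro a
    rw [hF]
    exact Finset.measurableSet_biInter _ (fun m _ => hE m)
  have hFi : iIndepSet F μ := by
    rw [show F = fun a => ⋂ m ∈ Uk a, E m from funext hF]
    exact group hE hI Uk hdis
  have hmean : ∑ a ∈ V.map e.toEmbedding, μ.real (F a) = ∑ n ∈ V, ∏ j ∈ U n, μ.real (E j) := by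
    rw [sum_map]
    refine sum_congr rfl fun n hn => ?_
    rw [Equiv.coe_toEmbedding, hF, hUkV n hn, measureReal_def, hI.meas_biInter, ENNReal.toReal_prod]
    rfl
  have hSS : ∀ ω, SS F (V.map e.toEmbedding) ω =
      ∑ n ∈ V, (if ∀ j ∈ U n, ω ∈ E j then (1 : ℝ) else 0) := by
    intro ω
    unfold SS
    rw [Finset.sum_apply, sum_map]
    refine sum_congr rfl fun n hn => ?_
    rw [Equiv.coe_toEmbedding, hF, hUkV n hn, Set.indicator_apply]
    congr 1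
    simp only [Set.mem_iInter]
  have h1 := up' F hFm hFi (V.map e.toEmbedding) ε lam hε hε1
  have h2 := low' F hFm hFi (V.map e.toEmbedding) ε lam hε hε1
  rw [hmean] at h1 h2
  simp only [hSS] at h1 h2
  have hsub : {ω | ε * ∑ n ∈ V, ∏ j ∈ U n, μ.real (E j) + lam <
      |∑ n ∈ V, (if ∀ j ∈ U n, ω ∈ E j then (1 : ℝ) else 0) - ∑ n ∈ V, ∏ j ∈ U n, μ.real (E j)|} ⊆
      {ω | (1 + ε) * ∑ n ∈ V, ∏ j ∈ U n, μ.real (E j) + lam ≤
        ∑ n ∈ V, (if ∀ j ∈ U n, ω ∈ E j then (1 : ℝ) else 0)} ∪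
      {ω | ∑ n ∈ V, (if ∀ j ∈ U n, ω ∈ E j then (1 : ℝ) else 0) ≤
        (1 - ε) * ∑ n ∈ V, ∏ j ∈ U n, μ.real (E j) - lam} := by
    intro ω hω
    rw [Set.mem_ofPred_eq, lt_abs] at hω
    rcases hω with h | h
    · left
      rw [Set.mem_ofPred_eq]
      linarith
    · right
      rw [Set.mem_ofPred_eq]
      linarith
  refine (measureReal_mono hsub).trans ((measureReal_union_le _ _).trans ?_)
  linarith

open Classical in
/-- **Package CHE.** -/
theorem t_CHE (h : Pool.Agent.U485.SM.S_COL) : Pool.Agent.U485.SM.S_CHE := by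
  intro Ω _ μ _ E hE hI V U D hD ε lam hε hε1 hlam
  obtain ⟨c, hc, hc'⟩ := h V (fun a b => ¬ Disjoint (U a) (U b)) (fun a b hab hab' => hab hab'.symm)
    D hD
  have hcR : ∀ n ∈ V, c n ∈ range (D + 1) := fun n hn => mem_range.2 (Nat.lt_succ_of_le (hc n hn))
  have hcol : ∀ k, μ.real {ω | ε * ∑ n ∈ V with c n = k, ∏ j ∈ U n, μ.real (E j) + lam <
      |∑ n ∈ V with c n = k, (if ∀ j ∈ U n, ω ∈ E j then (1 : ℝ) else 0) -
        ∑ n ∈ V with c n = k, ∏ j ∈ U n, μ.real (E j)|} ≤ 2 * Real.exp (-(ε * lam / 2)) := by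
    intro k
    refine colour E hE hI _ U ?_ ε lam hε.le hε1
    intro n hn m hm hnm
    rw [mem_filter] at hn hm
    exact not_not.1 (hc' n hn.1 m hm.1 hnm (hn.2.trans hm.2.symm))
  have hsub : {ω | ε * ∑ n ∈ V, ∏ j ∈ U n, μ.real (E j) + (D + 1) * lam <
      |((V.filter (fun n => ∀ j ∈ U n, ω ∈ E j)).card : ℝ) - ∑ n ∈ V, ∏ j ∈ U n, μ.real (E j)|} ⊆
      ⋃ k ∈ range (D + 1), {ω | ε * ∑ n ∈ V with c n = k, ∏ j ∈ U n, μ.real (E j) + lam <
      |∑ n ∈ V with c n = k, (if ∀ j ∈ U n, ω ∈ E j then (1 : ℝ) else 0) -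
        ∑ n ∈ V with c n = k, ∏ j ∈ U n, μ.real (E j)|} := by
    intro ω hω
    by_contra hcon
    simp only [Set.mem_iUnion, Set.mem_ofPred_eq, not_exists, not_lt] at hcon
    rw [Set.mem_ofPred_eq, card_filter] at hω
    push_cast at hω
    rw [← sum_fiberwise_of_maps_to hcR (fun n => ∏ j ∈ U n, μ.real (E j)),
      ← sum_fiberwise_of_maps_to hcR (fun n => if ∀ j ∈ U n, ω ∈ E j then (1 : ℝ) else 0),
      ← sum_sub_distrib] at hω
    have h1 := (abs_sum_le_sum_abs (fun k => ∑ n ∈ V with c n = k,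
      (if ∀ j ∈ U n, ω ∈ E j then (1 : ℝ) else 0) -
        ∑ n ∈ V with c n = k, ∏ j ∈ U n, μ.real (E j)) (range (D + 1)))
    have h2 := sum_le_sum (fun k hk => hcon k hk)
    rw [sum_add_distrib, ← mul_sum, sum_const, card_range, nsmul_eq_mul] at h2
    push_cast at h2
    exact absurd (hω.trans_le (h1.trans h2)) (lt_irrefl _)
  refine (measureReal_mono hsub (measure_ne_top μ _)).trans ((measureReal_biUnion_finset_le _ _).trans ?_)
  refine (sum_le_sum (fun k _ => hcol k)).trans ?_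
  rw [sum_const, card_range, nsmul_eq_mul]
  push_cast
  exact le_of_eq (by ring)

end Pool.Agent.U741.HT
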